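import Pool.Agent.H34.N6V.Targets
import Pool.Agent.H5.N6E.ERED

/-!
# Row VFBR: the factors of the reduction are the places
-/

set_option autoImplicit false

open Polynomial NumberField IsDedekindDomain Pool.Agent.H32.QC Pool.Agent.H34.N6
open Pool.Agent.H13.DEV Pool.Agent.H34.N6V Pool.Agent.H5.N6E

namespace Pool.Agent.H73.N6V

variable {k L : Type} [Field k] [NumberField k] [Field L] [NumberField L] [Algebra k L]

theorem exists_poly {P : k[X]} {e : L} (hG : Gen P e) (hP : P.Monic) (h0 : aeval e P = 0)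
    (z : L) : ∃ Q : k[X], Q.degree < P.degree ∧ aeval e Q = z := by
  have hint : IsIntegral k e := ⟨P, hP, h0⟩
  have h1 : z ∈ (IntermediateField.adjoin k {e}).toSubalgebra := by
    rw [hG.adj]
    exact trivial
  rw [IntermediateField.adjoin_simple_toSubalgebra_of_isAlgebraic hint.isAlgebraic,
    Algebra.adjoin_singleton_eq_range_aeval] at h1
  obtain ⟨Q, hQ⟩ := h1
  refine ⟨Q %ₘ P, degree_modByMonic_lt Q hP, ?_⟩
  have h2 : aeval e (Q %ₘ P + P * (Q /ₘ P)) = aeval e Q := by rw [modByMonic_add_div]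
  rw [map_add, map_mul, h0, zero_mul, add_zero] at h2
  rw [h2]
  exact hQ

section res

variable {v : FPl k} {F : Type} [Field F] {O : Subring k} {ρ : O →+* F}

theorem lift_int (hR : Resd v F O ρ) {A : k[X]} (hA : Int v A) :
    ∃ A' : O[X], A'.map O.subtype = A := by
  have h : (↑A.coeffs : Set k) ⊆ O := by
    intro x hx
    obtain ⟨n, -, rfl⟩ := Polynomial.mem_coeffs_iff.1 hx
    exact (hR.mem _).2 (hA n)
  exact ⟨A.toSubring O h, Polynomial.map_toSubring A O h⟩

theorem int_map (hR : Resd v F O ρ) (Q : O[X]) : Int v (Q.map O.subtype) := by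
  intro i
  rw [coeff_map]
  exact (hR.mem _).1 (Q.coeff i).2

theorem map_zero_iff (hR : Resd v F O ρ) (Q : O[X]) :
    Q.map ρ = 0 ↔ ∀ i, ‖ic v ((Q.map O.subtype).coeff i)‖ < 1 := by
  constructor
  · intro h i
    rw [coeff_map]
    have h1 : ρ (Q.coeff i) = 0 := by
      rw [← coeff_map, h, coeff_zero]
    exact (hR.ker _).1 h1
  · intro h
    ext i
    rw [coeff_map, coeff_zero]
    have h1 := h i
    rw [coeff_map] at h1
    exact (hR.ker _).2 h1

theorem inj (Q Q' : O[X]) (h : Q.map O.subtype = Q'.map O.subtype) : Q = Q' :=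
  Polynomial.map_injective O.subtype Subtype.coe_injective h

end res

/-- two elements of norm less than one -/
theorem add_lt (w : FPl L) {x y : w.adicCompletion L} (hx : ‖x‖ < 1) (hy : ‖y‖ < 1) :
    ‖x + y‖ < 1 :=
  (IsUltrametricDist.norm_add_le_max _ _).trans_lt (max_lt hx hy)

theorem sub_lt' (w : FPl L) {x y : w.adicCompletion L} (hx : ‖x‖ < 1) (hy : ‖y‖ < 1) :
    ‖x - y‖ < 1 := by
  rw [sub_eq_add_neg]
  apply add_lt w hx
  rw [norm_neg]
  exact hy

theorem pf_FBR (hFAD : T_FAD) (hSEP : T_SEP) (hCFI : T_CFI) (_hBEL : T_BEL) (hFIN : T_FIN) :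
    T_FBR := by
  classical
  intro k L _ _ _ _ _ P D e v F _ O ρ P' hP hG hgood hR hP'
  have h0 : aeval e P = 0 := by rw [← hG.mp]; exact minpoly.aeval k e
  have hint : IsIntegral k e := ⟨P, hP, h0⟩
  have hdeg : 0 < P.degree := by rw [← hG.mp]; exact minpoly.degree_pos hint
  have hsur : Function.Surjective (Polynomial.map ρ) := Polynomial.map_surjective ρ hR.sur
  have hP'm : P'.Monic := by
    apply Polynomial.monic_of_injective (f := O.subtype) Subtype.coe_injective
    rw [hP']
    exact hP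
  let T : Type := {u : FPl L // u.under (𝓞 k) = v}
  have hTf : Finite T := by
    have h1 := (hFIN k L).1 (Sum.inl v)
    have h2 : {u : FPl L | u.under (𝓞 k) = v}.Finite := by
      apply Set.Finite.of_finite_image (f := Sum.inl)
      · apply h1.subset
        rintro _ ⟨u, hu, rfl⟩
        exact congrArg Sum.inl (show u.under (𝓞 k) = v from hu)
      · exact Sum.inl_injective.injOn
    exact h2.to_subtype
  letI hTF : Fintype T := Fintype.ofFinite T
  -- integrality of `e`
  have he : ∀ i : T, ‖ic i.1 e‖ ≤ 1 := by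
    intro i
    apply root_int i.1 e P hP _ h0
    rw [i.2]
    exact hgood.intP
  -- values of integral polynomials
  have hle : ∀ (i : T) (Q : O[X]), ‖ic i.1 (aeval e (Q.map O.subtype))‖ ≤ 1 := by
    intro i Q
    apply int_le i.1 e (he i)
    rw [i.2]
    exact int_map hR Q
  have hlt : ∀ (i : T) (Q : O[X]), Q.map ρ = 0 →
      ‖ic i.1 (aeval e (Q.map O.subtype))‖ < 1 := by
    intro i Q hQ
    apply int_lt i.1 e (he i)
    rw [i.2]
    exact (map_zero_iff hR Q).1 hQ
  -- the factors
  have hex : ∀ i : T, ∃ A : O[X], A.Monic ∧ ‖ic i.1 (aeval e (A.map O.subtype))‖ < 1 ∧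
      ∀ Q : O[X], ‖ic i.1 (aeval e (Q.map O.subtype))‖ < 1 → A.map ρ ∣ Q.map ρ := by
    intro i
    have hg : GoodAt P D (i.1.under (𝓞 k)) := by rw [i.2]; exact hgood
    obtain ⟨A, hAm, hAi, -, hAe, -, -, -, hA⟩ := hFAD k L P D e i.1 hP hG hg
    rw [i.2] at hAi hA
    obtain ⟨A', hA'⟩ := lift_int hR hAi
    refine ⟨A', ?_, ?_, ?_⟩
    · apply Polynomial.monic_of_injective (f := O.subtype) Subtype.coe_injective
      rw [hA']
      exact hAm
    · rw [hA']
      exact hAe
    · intro Q hQ
      obtain ⟨C, B, hC, hQ1, hB⟩ := hA (Q.map O.subtype) (int_map hR Q) hQ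
      obtain ⟨C', hC'⟩ := lift_int hR hC
      have h1 : (Q - A' * C').map O.subtype = B := by
        rw [Polynomial.map_sub, Polynomial.map_mul, hA', hC', hQ1]
        ring
      have h2 : (Q - A' * C').map ρ = 0 := by
        rw [map_zero_iff hR, h1]
        exact hB
      rw [Polynomial.map_sub, Polynomial.map_mul, sub_eq_zero] at h2
      rw [h2]
      exact dvd_mul_right _ _
  choose A hAm hAe hAd using hex
  let q : T → F[X] := fun i => (A i).map ρ
  have hqm : ∀ i, (q i).Monic := fun i => (hAm i).map ρ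
  -- (a)
  have ha : ∀ i, ∀ Q : O[X], q i ∣ Q.map ρ ↔ ‖ic i.1 (aeval e (Q.map O.subtype))‖ < 1 := by
    intro i Q
    constructor
    · rintro ⟨c, hc⟩
      obtain ⟨C', rfl⟩ := hsur c
      have h1 : (Q - A i * C').map ρ = 0 := by
        rw [Polynomial.map_sub, Polynomial.map_mul, hc, sub_self]
      have h2 := hlt i _ h1
      have h3 : Q.map O.subtype = (Q - A i * C').map O.subtype +
          (A i).map O.subtype * C'.map O.subtype := by
        rw [Polynomial.map_sub, Polynomial.map_mul]
        ring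
      rw [h3, map_add, map_add]
      apply add_lt _ h2
      rw [map_mul, map_mul, norm_mul]
      exact mul_lt_one_of_nonneg_of_lt_one_left (norm_nonneg _) (hAe i) (hle i C')
    · exact hAd i Q
  -- (b)
  have hnu : ∀ i, ¬ IsUnit (q i) := by
    intro i hu
    have h1 : q i ∣ (1 : O[X]).map ρ := hu.dvd
    have h2 := (ha i 1).1 h1
    rw [Polynomial.map_one, map_one, map_one, norm_one] at h2
    exact lt_irrefl _ h2
  have hpr : ∀ i, Prime (q i) := by
    intro i
    refine ⟨(hqm i).ne_zero, hnu i, ?_⟩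
    intro a b hab
    obtain ⟨a, rfl⟩ := hsur a
    obtain ⟨b, rfl⟩ := hsur b
    rw [← Polynomial.map_mul, ha, Polynomial.map_mul, map_mul, map_mul, norm_mul] at hab
    rw [ha, ha]
    by_contra hcon
    push Not at hcon
    have h1 := mul_le_mul hcon.1 hcon.2 zero_le_one (norm_nonneg _)
    rw [one_mul] at h1
    exact absurd hab (not_lt.2 h1)
  -- (c)
  have hco : ∀ i j : T, i ≠ j → IsCoprime (q i) (q j) := by
    intro i j hij
    obtain ⟨Q, hQi, hQ1, hQ2⟩ := hSEP k L P D e v i.1 j.1 hP hG hgood i.2 j.2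
      (fun h => hij (Subtype.ext h))
    obtain ⟨Q', rfl⟩ := lift_int hR hQi
    obtain ⟨a, h1⟩ := (ha i Q').2 hQ1
    have h2 : ‖ic j.1 (aeval e ((Q' - 1).map O.subtype))‖ < 1 := by
      rw [Polynomial.map_sub, Polynomial.map_one, map_sub, map_sub, map_one, map_one]
      exact hQ2
    obtain ⟨b, h3⟩ := (ha j (Q' - 1)).2 h2
    rw [Polynomial.map_sub, Polynomial.map_one, h1] at h3
    refine ⟨a, -b, ?_⟩
    linear_combination h3
  -- (d)
  have hdv : ∏ i, q i ∣ P'.map ρ := by
    apply Finset.prod_dvd_of_coprime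
    · intro i _ j _ hij
      exact hco i j hij
    · intro i _
      rw [ha, hP', h0, map_zero, norm_zero]
      exact zero_lt_one
  obtain ⟨U, hU⟩ := hdv
  have hsep : (P'.map ρ).Separable := by
    obtain ⟨a, b, hai, hbi, hab⟩ := hgood.sep
    obtain ⟨a', rfl⟩ := lift_int hR hai
    obtain ⟨b', rfl⟩ := lift_int hR hbi
    have h1 : a' * P' + b' * derivative P' = 1 := by
      apply inj
      rw [Polynomial.map_add, Polynomial.map_mul, Polynomial.map_mul, ← Polynomial.derivative_map,
        hP', Polynomial.map_one]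
      exact hab
    refine ⟨a'.map ρ, b'.map ρ, ?_⟩
    rw [Polynomial.derivative_map, ← Polynomial.map_mul, ← Polynomial.map_mul,
      ← Polynomial.map_add, h1, Polynomial.map_one]
  have hPrm : (P'.map ρ).Monic := hP'm.map ρ
  have hprm : (∏ i, q i).Monic := monic_prod_of_monic _ _ fun i _ => hqm i
  have hUm : U.Monic := by
    rw [hU] at hPrm
    exact hprm.of_mul_monic_left hPrm
  have hU1 : U = 1 := by
    by_contra hU1
    have hUu : ¬ IsUnit U := fun h => hU1 (hUm.isUnit_iff.1 h)
    obtain ⟨r, hr, hrU⟩ := WfDvdMonoid.exists_irreducible_factor hUu hUm.ne_zero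
    have hrd : ∀ i, ¬ q i ∣ r := by
      intro i hi
      have h1 : q i * q i ∣ P'.map ρ := by
        rw [hU]
        exact mul_dvd_mul (Finset.dvd_prod_of_mem q (Finset.mem_univ i)) (hi.trans hrU)
      exact hnu i (hsep.squarefree _ h1)
    obtain ⟨R0, rfl⟩ := hsur r
    have hone : ∀ i : T, ‖ic i.1 (aeval e (R0.map O.subtype))‖ = 1 := by
      intro i
      apply le_antisymm (hle i R0)
      have h1 := hrd i
      rw [ha] at h1
      exact not_lt.1 h1
    -- there is a place above
    have hne : aeval e (R0.map O.subtype) ≠ 0 := by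
      intro hz
      have hemp : ∀ i : T, False := by
        intro i
        have h1 := hone i
        rw [hz, map_zero, norm_zero] at h1
        exact zero_ne_one h1
      obtain ⟨x, hx⟩ := v.valuation_exists_uniformizer k
      have hx0 : x ≠ 0 := by
        intro h
        rw [h, map_zero] at hx
        exact WithZero.exp_ne_zero hx.symm
      have h1 : Int v (C x⁻¹ : k[X]) := by
        apply hCFI k L P D e v hG hgood
        · exact degree_C_le.trans_lt hdeg
        · intro w hw
          exact (hemp ⟨w, hw⟩).elim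
      have h2 := h1 0
      rw [coeff_C_zero, norm_ic_le_one_iff, map_inv₀, hx] at h2
      rw [← WithZero.exp_neg, neg_neg, ← WithZero.exp_zero, WithZero.exp_le_exp] at h2
      norm_num at h2
    obtain ⟨Q, hQd, hQ⟩ := exists_poly hG hP h0 (aeval e (R0.map O.subtype))⁻¹
    have hQi : Int v Q := by
      apply hCFI k L P D e v hG hgood Q hQd
      intro w hw
      rw [hQ, map_inv₀, norm_inv, hone ⟨w, hw⟩, inv_one]
    obtain ⟨Q', rfl⟩ := lift_int hR hQi
    have h1 : P' ∣ R0 * Q' - 1 := by
      rw [← Polynomial.map_dvd_map O.subtype Subtype.coe_injective hP'm, hP', ← hG.mp]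
      apply minpoly.dvd
      rw [Polynomial.map_sub, Polynomial.map_mul, Polynomial.map_one, map_sub, map_mul, map_one,
        hQ, mul_inv_cancel₀ hne, sub_self]
    have h2 : P'.map ρ ∣ R0.map ρ * Q'.map ρ - 1 := by
      have h3 := Polynomial.map_dvd ρ h1
      rwa [Polynomial.map_sub, Polynomial.map_mul, Polynomial.map_one] at h3
    have h3 : R0.map ρ ∣ P'.map ρ := by
      rw [hU]
      exact hrU.trans (dvd_mul_left _ _)
    have h4 : R0.map ρ ∣ 1 := by
      have h5 := dvd_sub (dvd_mul_right (R0.map ρ) (Q'.map ρ)) (h3.trans h2)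
      rwa [sub_sub_cancel] at h5
    exact hr.not_isUnit (isUnit_of_dvd_one h4)
  refine ⟨T, hTF, fun i => i.1, q, Subtype.val_injective, ?_, ?_, ?_, ha⟩
  · intro u
    constructor
    · intro hu
      exact ⟨⟨u, hu⟩, rfl⟩
    · rintro ⟨i, rfl⟩
      exact i.2
  · intro i
    exact ⟨hqm i, (hpr i).irreducible⟩
  · rw [hU, hU1, mul_one]

end Pool.Agent.H73.N6V
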